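import Mathlib
import Pool.Agent.R922.HK.Main

/-!
# MP_6a97ae_co (Hickerson): the exact value of `R(n)`

`R(n)` is the largest size of a set `S ⊆ {1, ..., n}` in which every positive difference `s`
occurs at most `2 s` times. We prove, for every `n ≥ 1`,
`R(n) = 1 + L (L + 1) + ⌊(n - 1 - L (L + 1) (2 L + 1) / 3) / (L + 1)⌋`
where `L ≥ 0` is the unique integer with
`L (L + 1) (2 L + 1) / 3 ≤ n - 1 < (L + 1) (L + 2) (2 L + 3) / 3`.
(The two fractions are integers; in the statement everything is multiplied by 3.)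
-/

namespace Pool.Agent.Results.MP_6a97ae_co.Exact

/-- `nu S s`: the number of pairs `(a, b)` of elements of `S` with `b - a = s`. -/
def nu (S : Finset ℕ) (s : ℕ) : ℕ := ((S ×ˢ S).filter (fun p => p.2 = p.1 + s)).card

/-- admissible: `nu(s) ≤ 2 s` for every positive integer `s` -/
def Admissible (S : Finset ℕ) : Prop := ∀ s : ℕ, 1 ≤ s → nu S s ≤ 2 * s

/-- `R n`: the largest size of an admissible subset of `{1, ..., n}` -/
noncomputable def R (n : ℕ) : ℕ :=
  sSup {r : ℕ | ∃ S : Finset ℕ, S ⊆ Finset.Icc 1 n ∧ Admissible S ∧ S.card = r}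

/-- the value of `R n` on the range of `n` belonging to `L` -/
def formula (n L : ℕ) : ℕ :=
  1 + L * (L + 1) + (3 * (n - 1) - L * (L + 1) * (2 * L + 1)) / (3 * (L + 1))

/-- `n` belongs to the range of `L` -/
def InRange (n L : ℕ) : Prop :=
  L * (L + 1) * (2 * L + 1) ≤ 3 * (n - 1) ∧ 3 * (n - 1) < (L + 1) * (L + 2) * (2 * L + 3)

theorem exists_unique_L (n : ℕ) : ∃! L : ℕ, InRange n L := by
  have mono : StrictMono (fun L : ℕ => L * (L + 1) * (2 * L + 1)) := by
    apply strictMono_nat_of_lt_succ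
    intro L
    show L * (L + 1) * (2 * L + 1) < (L + 1) * (L + 1 + 1) * (2 * (L + 1) + 1)
    nlinarith [Nat.zero_le (L * L)]
  have hex : ∃ L : ℕ, 3 * (n - 1) < (L + 1) * (L + 2) * (2 * L + 3) := by
    refine ⟨3 * (n - 1), ?_⟩
    nlinarith [Nat.zero_le (3 * (n - 1)), Nat.zero_le ((3 * (n - 1)) * (3 * (n - 1)))]
  classical
  refine ⟨Nat.find hex, ⟨?_, Nat.find_spec hex⟩, ?_⟩
  · rcases Nat.eq_zero_or_pos (Nat.find hex) with h | h
    · rw [h]; simp
    · obtain ⟨K, hK⟩ := Nat.exists_eq_succ_of_ne_zero (Nat.pos_iff_ne_zero.1 h)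
      have h2 := Nat.find_min hex (show K < Nat.find hex by omega)
      rw [hK]
      have e : (K + 1) * (K + 1 + 1) * (2 * (K + 1) + 1) = (K + 1) * (K + 2) * (2 * K + 3) := by
        ring
      rw [Nat.succ_eq_add_one, e]
      omega
  · intro L hL
    have hf := Nat.find_spec hex
    have hmin : Nat.find hex ≤ L := Nat.find_le hL.2
    rcases Nat.lt_or_ge (Nat.find hex) L with h | h
    · exfalso
      have h3 := mono.monotone (show Nat.find hex + 1 ≤ L by omega)
      have h4 : (Nat.find hex + 1) * (Nat.find hex + 1 + 1) * (2 * (Nat.find hex + 1) + 1) ≤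
        L * (L + 1) * (2 * L + 1) := h3
      have e : (Nat.find hex + 1) * (Nat.find hex + 1 + 1) * (2 * (Nat.find hex + 1) + 1) =
        (Nat.find hex + 1) * (Nat.find hex + 2) * (2 * Nat.find hex + 3) := by ring
      rw [e] at h4
      have := hL.1
      omega
    · omega

/-- **Exact value of `R(n)`.** For every `n ≥ 1` there is exactly one `L` with
`L (L+1) (2L+1) / 3 ≤ n - 1 < (L+1) (L+2) (2L+3) / 3`, and for it
`R(n) = 1 + L (L+1) + ⌊(n - 1 - L (L+1) (2L+1) / 3) / (L+1)⌋`, and this value is attained. -/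
theorem result : ∀ n : ℕ, 1 ≤ n →
    (∃! L : ℕ, InRange n L) ∧
    ∀ L : ℕ, InRange n L →
      R n = formula n L ∧
      IsGreatest {r : ℕ | ∃ S : Finset ℕ, S ⊆ Finset.Icc 1 n ∧ Admissible S ∧ S.card = r}
        (formula n L) := by
  intro n hn
  refine ⟨exists_unique_L n, fun L hL => ?_⟩
  have h : IsGreatest {r : ℕ | ∃ S : Finset ℕ, S ⊆ Finset.Icc 1 n ∧ Admissible S ∧ S.card = r}
      (formula n L) := R922.HK.main n L hn hL.1 hL.2
  exact ⟨h.csSup_eq, h⟩

end Pool.Agent.Results.MP_6a97ae_co.Exact
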